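import Pool.Agent.Helper98.SPR.Stmts

/-!
Row CROSS of MP_728613: crossing bound for disjoint paths in the touching graph.
-/

namespace SPR

open Finset

namespace Cross

variable {α : Type}

theorem count {ι : Type} [DecidableEq α] (I : Finset ι) (T : ι → Finset α)
    (hT : ∀ l ∈ I, ∀ l' ∈ I, l ≠ l' → Disjoint (T l) (T l')) (f : α → ℝ)
    (b B : ℝ) (hb : ∀ l ∈ I, b ≤ ∑ a ∈ T l, f a)
    (hB : ∑ a ∈ I.biUnion T, f a ≤ B) : (I.card : ℝ) * b ≤ B := by
  rw [Finset.sum_biUnion (fun l hl l' hl' h => hT l hl l' hl' h)] at hB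
  have h1 : (I.card : ℝ) * b = ∑ _l ∈ I, b := by rw [Finset.sum_const, nsmul_eq_mul]
  rw [h1]
  exact (Finset.sum_le_sum hb).trans hB

theorem cs (T : Finset α) (f : α → ℝ) (x L : ℝ) (hx : 0 ≤ x) (hL : 0 < L)
    (h : x ≤ ∑ a ∈ T, f a) (hc : (T.card : ℝ) ≤ L) : x ^ 2 / L ≤ ∑ a ∈ T, f a ^ 2 := by
  have h1 : (∑ a ∈ T, f a) ^ 2 ≤ T.card * ∑ a ∈ T, f a ^ 2 := sq_sum_le_card_mul_sum_sq
  have h2 : 0 ≤ ∑ a ∈ T, f a ^ 2 := Finset.sum_nonneg fun _ _ => sq_nonneg _
  rw [div_le_iff₀ hL]
  have h3 : x ^ 2 ≤ (∑ a ∈ T, f a) ^ 2 := pow_le_pow_left₀ hx h 2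
  nlinarith [mul_le_mul_of_nonneg_right hc h2]

/-- Along a walk the far distance grows by at most twice the radii. -/
theorem walk_up (G : SimpleGraph α) (F r : α → ℝ)
    (h : ∀ a b, G.Adj a b → F b ≤ F a + 2 * r b) {u v : α} (w : G.Walk u v)
    (hr : ∀ a, 0 ≤ r a) : F v ≤ F u + 2 * (w.support.map r).sum - 2 * r u := by
  induction w with
  | nil => simp
  | cons hadj w ih =>
    rename_i a b c
    have h1 := h _ _ hadj
    rw [SimpleGraph.Walk.support_cons, List.map_cons, List.sum_cons]
    linarith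

open Classical in
theorem walk_in (G : SimpleGraph α) (F n r : α → ℝ) (R : ℝ)
    (hF : ∀ a, F a = n a + 2 * r a) (hr : ∀ a, 0 ≤ r a)
    (h : ∀ a b, G.Adj a b → n b ≤ F a) {u v : α} (w : G.Walk u v)
    (hu : n u ≤ R) (hv : R < F v) :
    R < n u + 2 * (w.support.map (fun a => if n a ≤ R then r a else 0)).sum := by
  induction w with
  | nil =>
    rw [hF] at hv
    simpa [hu] using hv
  | cons hadj w ih =>
    rename_i a b c
    rw [SimpleGraph.Walk.support_cons, List.map_cons, List.sum_cons, if_pos hu]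
    have h0 : 0 ≤ (w.support.map (fun a => if n a ≤ R then r a else 0)).sum := by
      apply List.sum_nonneg
      intro x hx
      rw [List.mem_map] at hx
      obtain ⟨a, _, rfl⟩ := hx
      split_ifs
      · exact hr a
      · exact le_rfl
    by_cases h1 : F a ≤ R
    · have h2 := h _ _ hadj
      have h3 := ih (h2.trans h1) hv
      rw [hF] at h2
      linarith
    · rw [hF] at h1
      push Not at h1
      linarith

theorem list_to_finset [DecidableEq α] (l : List α) (hl : l.Nodup) (T : Finset α)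
    (hT : ∀ a ∈ l, a ∈ T) (f : α → ℝ) (hf : ∀ a, 0 ≤ f a) : (l.map f).sum ≤ ∑ a ∈ T, f a := by
  have h1 : (l.map f).sum = ∑ a ∈ l.toFinset, f a := (List.sum_toFinset f hl).symm
  rw [h1]
  apply Finset.sum_le_sum_of_subset_of_nonneg
  · intro a ha
    exact hT a (List.mem_toFinset.1 ha)
  · intro a _ _
    exact hf a

end Cross

open Classical in
theorem st_CROSS : ST_AREA → ST_AREA2 → ST_EDGE → ST_CROSS := by
  intro hA hA2 hE K V c M o p k ι _ y y' z W L hK hL0 hy hW hadj hz hdis hcard
  have hE' := hE K V c M hK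
  have hrad : ∀ a, 0 ≤ M.rad a := fun a => (M.rad_pos a).le
  set T : ι → Finset (Fin M.N) := fun l => (W l).support.toFinset with hTdef
  have hmem : ∀ l, y' l ∈ T l := fun l => by simp [hTdef]
  have hTmem : ∀ l a, a ∈ T l → M.Reg (k + 1) o p a := by
    intro l a ha
    exact hW l a (by simpa [hTdef] using ha)
  set ρ := M.rad o with hρ
  have hρ0 : 0 < ρ := M.rad_pos o
  -- bounds for the two kinds of exits
  have hdisT : ∀ l l', l ≠ l' → Disjoint (T l) (T l') := fun l l' h => hdis l l' h
  by_cases hι : IsEmpty ι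
  · have h0 : Fintype.card ι = 0 := Fintype.card_eq_zero
    rw [h0]
    push_cast
    positivity
  rw [not_isEmpty_iff] at hι
  obtain ⟨l0⟩ := hι
  have hL1 : 1 ≤ L := by
    have h1 : 0 < (T l0).card := Finset.card_pos.2 ⟨_, hmem l0⟩
    have h2 : (1 : ℝ) ≤ ((T l0).card : ℝ) := by exact_mod_cast h1
    exact h2.trans (hcard l0)
  have hL : 0 < L := by linarith
  set Out : Finset ι := Finset.univ.filter fun l =>
    2 ^ (k + 1) * ρ < fd M.ctr M.rad (M.ctr o) (z l) with hOut
  set Inn : Finset ι := Finset.univ.filter fun l =>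
    2 ^ (k + 1) * fd M.ctr M.rad p (z l) ≤ ρ with hInn
  have hcov : Fintype.card ι ≤ Out.card + Inn.card := by
    rw [← Finset.card_univ]
    refine (Finset.card_le_card ?_).trans (Finset.card_union_le Out Inn)
    intro l _
    have h1 := hz l
    unfold DiscModel.Reg at h1
    rw [not_and_or, not_le, not_lt] at h1
    rw [Finset.mem_union, hOut, hInn, Finset.mem_filter, Finset.mem_filter]
    rcases h1 with h1 | h1
    · exact Or.inl ⟨Finset.mem_univ _, h1⟩
    · exact Or.inr ⟨Finset.mem_univ _, h1⟩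
  -- outer exits
  have hout : (Out.card : ℝ) * (((2 ^ k * ρ) / (2 * (1 + K))) ^ 2 / L) ≤
      (2 ^ (k + 1) * ρ) ^ 2 := by
    refine Cross.count Out T (fun l _ l' _ h => hdisT l l' h) (fun a => M.rad a ^ 2) _ _ ?_ ?_
    · intro l hl
      rw [hOut, Finset.mem_filter] at hl
      have hl2 := hl.2
      refine Cross.cs (T l) M.rad _ L (by positivity) hL ?_ (hcard l)
      have h1 := Cross.walk_up M.TG (fd M.ctr M.rad (M.ctr o)) M.rad
        (fun a b hab => ((hE' a b hab).2.2 (M.ctr o)).1) ((W l).bypass) hrad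
      have h2 := Cross.list_to_finset (W l).bypass.support (W l).bypass_isPath.support_nodup
        (T l) (fun a ha => by
          rw [hTdef]
          exact List.mem_toFinset.2 ((W l).support_bypass_subset_support ha)) M.rad hrad
      have h3 := (hE' _ _ (hadj l))
      have h4 := (h3.2.2 (M.ctr o)).1
      have h5 := (hE' _ _ (hadj l).symm).1
      have h6 : M.rad (y' l) ≤ ∑ a ∈ T l, M.rad a :=
        Finset.single_le_sum (fun a _ => hrad a) (hmem l)
      have h7 := (hy l).1
      have h8 := hrad (y l)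
      have h9 : 2 * M.rad (z l) ≤ 2 * K * M.rad (y' l) := by nlinarith
      have h10 : 2 * K * M.rad (y' l) ≤ 2 * K * ∑ a ∈ T l, M.rad a :=
        mul_le_mul_of_nonneg_left h6 (by linarith)
      rw [div_le_iff₀ (by linarith)]
      have h11 : (2 : ℝ) ^ (k + 1) * ρ = 2 * (2 ^ k * ρ) := by ring
      rw [h11] at hl2
      nlinarith
    · refine hA M.N M.ctr M.rad _ (M.ctr o) _ M.rad_pos M.disj ?_ (by positivity)
      intro d hd
      rw [Finset.mem_biUnion] at hd
      obtain ⟨l, _, hd⟩ := hd
      exact (hTmem l d hd).1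
  have hout2 : (Out.card : ℝ) ≤ 16 * (1 + K) ^ 2 * L := by
    have h1 : ((2 ^ k * ρ) / (2 * (1 + K))) ^ 2 / L = (2 ^ (k + 1) * ρ) ^ 2 /
        (16 * (1 + K) ^ 2 * L) := by
      have : (1 + K) ≠ 0 := by linarith
      field_simp
      ring
    rw [h1] at hout
    have h2 : 0 < (2 ^ (k + 1) * ρ) ^ 2 := by positivity
    have h3 : 0 < 16 * (1 + K) ^ 2 * L := by positivity
    rw [mul_div_assoc', div_le_iff₀ h3, mul_comm] at hout
    exact le_of_mul_le_mul_left hout h2
  -- inner exits
  set R : ℝ := ρ / 2 ^ k with hR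
  have hR0 : 0 < R := by positivity
  set n : Fin M.N → ℝ := fun a => dist (M.ctr a) p - M.rad a with hn
  have hF : ∀ a, fd M.ctr M.rad p a = n a + 2 * M.rad a := by
    intro a
    simp only [fd, hn]
    ring
  have hnb : ∀ a b, M.TG.Adj a b → n b ≤ fd M.ctr M.rad p a := by
    intro a b hab
    have h1 := ((hE' a b hab).2.2 p).1
    rw [hF b] at h1
    linarith
  have hinn : (Inn.card : ℝ) * ((R / 8) ^ 2 / L) ≤ 9 * R ^ 2 := by
    refine Cross.count Inn (fun l => (T l).filter fun a => n a ≤ R)
      (fun l _ l' _ h => Finset.disjoint_filter_filter (hdisT l l' h))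
      (fun a => (min (M.rad a) R) ^ 2) _ _ ?_ ?_
    · intro l hl
      rw [hInn, Finset.mem_filter] at hl
      have hl2 := hl.2
      refine Cross.cs _ (fun a => min (M.rad a) R) _ L (by positivity) hL ?_
        (le_trans (by exact_mod_cast Finset.card_filter_le _ _) (hcard l))
      have hnn : ∀ a, 0 ≤ min (M.rad a) R := fun a => le_min (hrad a) hR0.le
      by_cases hbig : ∃ a ∈ T l, n a ≤ R ∧ R / 8 ≤ M.rad a
      · obtain ⟨a, ha, ha1, ha2⟩ := hbig
        have h1 : min (M.rad a) R ≤ ∑ a ∈ (T l).filter (fun a => n a ≤ R), min (M.rad a) R :=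
          Finset.single_le_sum (f := fun a => min (M.rad a) R) (fun a _ => hnn a)
            (Finset.mem_filter.2 ⟨ha, ha1⟩)
        refine le_trans (le_min ha2 (by linarith)) h1
      · push Not at hbig
        have hzR : fd M.ctr M.rad p (z l) ≤ R / 2 := by
          rw [hR, div_div, ← pow_succ, le_div_iff₀ (by positivity)]
          linarith
        have hyR : R < fd M.ctr M.rad p (y l) := by
          have h1 := (hy l).2
          rw [hR, div_lt_iff₀ (by positivity)]
          linarith
        have hny : n (y' l) ≤ R / 2 := (hnb _ _ (hadj l).symm).trans hzR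
        have h1 := Cross.walk_in M.TG (fd M.ctr M.rad p) n M.rad R hF hrad hnb
          ((W l).bypass.reverse) (by linarith) hyR
        have h2 := Cross.list_to_finset (W l).bypass.reverse.support
          ((W l).bypass_isPath.reverse.support_nodup) (T l) (fun a ha => by
          rw [hTdef]
          rw [SimpleGraph.Walk.support_reverse, List.mem_reverse] at ha
          exact List.mem_toFinset.2 ((W l).support_bypass_subset_support ha))
          (fun a => if n a ≤ R then M.rad a else 0) (fun a => by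
            split_ifs
            · exact hrad a
            · exact le_rfl)
        rw [← Finset.sum_filter] at h2
        have h3 : ∑ a ∈ (T l).filter (fun a => n a ≤ R), M.rad a ≤
            ∑ a ∈ (T l).filter (fun a => n a ≤ R), min (M.rad a) R := by
          apply Finset.sum_le_sum
          intro a ha
          rw [Finset.mem_filter] at ha
          have h4 := hbig a ha.1 ha.2
          exact le_min le_rfl (by linarith)
        linarith
    · refine hA2 M.N M.ctr M.rad _ p R M.rad_pos M.disj hR0 ?_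
      intro d hd
      rw [Finset.mem_biUnion] at hd
      obtain ⟨l, _, hd⟩ := hd
      exact (Finset.mem_filter.1 hd).2
  have hinn2 : (Inn.card : ℝ) ≤ 576 * L := by
    have h1 : (R / 8) ^ 2 / L = R ^ 2 / (64 * L) := by
      field_simp
      ring
    rw [h1] at hinn
    have h2 : 0 < R ^ 2 := by positivity
    have h3 : 0 < 64 * L := by positivity
    rw [mul_div_assoc', div_le_iff₀ h3] at hinn
    have h4 : R ^ 2 * (Inn.card : ℝ) ≤ R ^ 2 * (576 * L) := by linarith
    exact le_of_mul_le_mul_left h4 h2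
  have h1 : (Fintype.card ι : ℝ) ≤ Out.card + Inn.card := by exact_mod_cast hcov
  have h2 : 4 ≤ (1 + K) ^ 2 := by nlinarith
  nlinarith

end SPR
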