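import Pool.Agent.Helper98.SPR.Stmts

/-!
Row REC1 of MP_728613: small energies imply recurrence.
-/

namespace SPR

open Finset Filter Topology

namespace R1

variable {V : Type} {c : V → V → ℕ}

theorem avg_eq (T : Finset V) (f : V → ℝ) (x : V) (hT : ∀ y, c x y ≠ 0 → y ∈ T) :
    avg c f x = (∑ y ∈ T, (c x y : ℝ) * f y) / (deg c x : ℝ) := by
  unfold avg
  congr 1
  apply finsum_eq_sum_of_support_subset
  intro y hy
  rw [Function.mem_support] at hy
  have h1 : c x y ≠ 0 := by
    intro h
    apply hy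
    rw [h]
    simp
  exact hT y h1

theorem deg_eq (T : Finset V) (x : V) (hT : ∀ y, c x y ≠ 0 → y ∈ T) :
    (deg c x : ℝ) = ∑ y ∈ T, (c x y : ℝ) := by
  unfold deg
  rw [finsum_eq_sum_of_support_subset (s := T)]
  · push_cast
    rfl
  · intro y hy
    exact hT y hy

theorem avg_mono (hc : Nice c) {f g : V → ℝ} (h : ∀ y, f y ≤ g y) (x : V) :
    avg c f x ≤ avg c g x := by
  have hT : ∀ y, c x y ≠ 0 → y ∈ (hc.2 x).toFinset := fun y hy => by
    rw [Set.Finite.mem_toFinset]
    exact hy
  rw [avg_eq _ f x hT, avg_eq _ g x hT]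
  apply div_le_div_of_nonneg_right _ (Nat.cast_nonneg _)
  apply Finset.sum_le_sum
  intro y _
  exact mul_le_mul_of_nonneg_left (h y) (Nat.cast_nonneg _)

theorem avg_sub (hc : Nice c) (f g : V → ℝ) (x : V) :
    avg c (fun y => f y - g y) x = avg c f x - avg c g x := by
  have hT : ∀ y, c x y ≠ 0 → y ∈ (hc.2 x).toFinset := fun y hy => by
    rw [Set.Finite.mem_toFinset]
    exact hy
  rw [avg_eq _ f x hT, avg_eq _ g x hT, avg_eq _ _ x hT, ← sub_div, ← Finset.sum_sub_distrib]
  congr 1
  apply Finset.sum_congr rfl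
  intro y _
  ring

theorem avg_mul (hc : Nice c) (a : ℝ) (f : V → ℝ) (x : V) :
    avg c (fun y => a * f y) x = a * avg c f x := by
  have hT : ∀ y, c x y ≠ 0 → y ∈ (hc.2 x).toFinset := fun y hy => by
    rw [Set.Finite.mem_toFinset]
    exact hy
  rw [avg_eq _ f x hT, avg_eq _ _ x hT, ← mul_div_assoc, Finset.mul_sum]
  congr 1
  apply Finset.sum_congr rfl
  intro y _
  ring

theorem avg_nonneg (hc : Nice c) {f : V → ℝ} (h : ∀ y, 0 ≤ f y) (x : V) : 0 ≤ avg c f x := by
  have h1 := avg_mono hc (f := fun _ => 0) (g := f) h x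
  have h2 := avg_mul hc 0 f x
  simp only [zero_mul] at h2
  rw [h2] at h1
  exact h1

theorem avg_le_one (hc : Nice c) {f : V → ℝ} (h : ∀ y, f y ≤ 1) (x : V) : avg c f x ≤ 1 := by
  have hT : ∀ y, c x y ≠ 0 → y ∈ (hc.2 x).toFinset := fun y hy => by
    rw [Set.Finite.mem_toFinset]
    exact hy
  refine (avg_mono hc (g := fun _ => 1) h x).trans ?_
  rw [avg_eq _ _ x hT]
  simp only [mul_one]
  rw [← deg_eq _ x hT]
  exact div_self_le_one _

theorem hit_mem (hc : Nice c) (o : V) (n : ℕ) : ∀ x, 0 ≤ hit c o n x ∧ hit c o n x ≤ 1 := by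
  induction n with
  | zero =>
    intro x
    unfold hit
    split_ifs <;> norm_num
  | succ n ih =>
    intro x
    unfold hit
    split_ifs
    · norm_num
    · exact ⟨avg_nonneg hc (fun y => (ih y).1) x, avg_le_one hc (fun y => (ih y).2) x⟩

open Classical in
/-- indicator of `o` -/
noncomputable def ind (o : V) (x : V) : ℝ := if x = o then 1 else 0

/-- Green function -/
noncomputable def Gr (c : V → V → ℕ) (o : V) : ℕ → V → ℝ
  | 0, x => ind o x
  | n + 1, x => ind o x + avg c (Gr c o n) x

/-- return probabilities -/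
noncomputable def pr (c : V → V → ℕ) (o : V) : ℕ → V → ℝ
  | 0, x => ind o x
  | n + 1, x => avg c (pr c o n) x

theorem ind_nonneg (o x : V) : 0 ≤ ind o x := by
  unfold ind
  split_ifs <;> norm_num

theorem pr_nonneg (hc : Nice c) (o : V) (n : ℕ) : ∀ x, 0 ≤ pr c o n x := by
  induction n with
  | zero => exact fun x => ind_nonneg o x
  | succ n ih => exact fun x => avg_nonneg hc ih x

theorem Gr_succ (hc : Nice c) (o : V) (n : ℕ) :
    ∀ x, Gr c o (n + 1) x - Gr c o n x = pr c o (n + 1) x := by
  induction n with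
  | zero =>
    intro x
    simp only [Gr, pr]
    ring_nf
  | succ n ih =>
    intro x
    have h1 : pr c o (n + 1 + 1) x = avg c (pr c o (n + 1)) x := rfl
    have h2 : pr c o (n + 1) = fun y => Gr c o (n + 1) y - Gr c o n y := by
      funext y
      exact (ih y).symm
    rw [h1, h2, avg_sub hc]
    have h3 : Gr c o (n + 1 + 1) x = ind o x + avg c (Gr c o (n + 1)) x := rfl
    have h4 : Gr c o (n + 1) x = ind o x + avg c (Gr c o n) x := rfl
    rw [h3, h4]
    ring

theorem Gr_nonneg (hc : Nice c) (o : V) (n : ℕ) : ∀ x, 0 ≤ Gr c o n x := by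
  induction n with
  | zero => exact fun x => ind_nonneg o x
  | succ n ih => exact fun x => add_nonneg (ind_nonneg o x) (avg_nonneg hc ih x)

theorem Gr_mono (hc : Nice c) (o : V) (n : ℕ) (x : V) : Gr c o n x ≤ Gr c o (n + 1) x := by
  have h1 := Gr_succ hc o n x
  have h2 := pr_nonneg hc o (n + 1) x
  linarith

theorem Gr_hit (hc : Nice c) (o : V) (n : ℕ) : ∀ x, Gr c o n x ≤ Gr c o n o * hit c o n x := by
  induction n with
  | zero =>
    intro x
    simp only [Gr, hit, ind]
    split_ifs <;> norm_num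
  | succ n ih =>
    intro x
    by_cases hx : x = o
    · subst hx
      simp [hit]
    · have h1 : hit c o (n + 1) x = avg c (hit c o n) x := by
        unfold hit
        rw [if_neg hx]
      have h2 : Gr c o (n + 1) x = avg c (Gr c o n) x := by
        simp [Gr, ind, hx]
      rw [h1, h2]
      refine (avg_mono hc ih x).trans ?_
      rw [avg_mul hc]
      exact mul_le_mul_of_nonneg_right (Gr_mono hc o n o)
        (avg_nonneg hc (fun y => (hit_mem hc o n y).1) x)

theorem Gr_ge_one (hc : Nice c) (o : V) (n : ℕ) : 1 ≤ Gr c o n o := by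
  induction n with
  | zero => simp [Gr, ind]
  | succ n ih => exact ih.trans (Gr_mono hc o n o)

theorem Gr_le (hc : Nice c) (o : V) (n : ℕ) (x : V) : Gr c o n x ≤ Gr c o n o := by
  refine (Gr_hit hc o n x).trans ?_
  have h1 := Gr_ge_one hc o n
  have h2 := (hit_mem hc o n x).2
  nlinarith

theorem Gr_eq_sum (hc : Nice c) (o : V) (n : ℕ) (x : V) :
    Gr c o n x = ∑ j ∈ Finset.range (n + 1), pr c o j x := by
  induction n with
  | zero => simp [Gr, pr]
  | succ n ih =>
    rw [Finset.sum_range_succ, ← ih]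
    have h1 := Gr_succ hc o n x
    linarith

theorem avg_support (hc : Nice c) {f : V → ℝ} (hf : (Function.support f).Finite) :
    (Function.support (avg c f)).Finite := by
  apply Set.Finite.subset (hf.biUnion fun y _ => hc.2 y)
  intro x hx
  rw [Function.mem_support] at hx
  by_contra hcon
  apply hx
  unfold avg
  have h1 : (fun y => (c x y : ℝ) * f y) = fun _ => 0 := by
    funext y
    by_contra h2
    apply hcon
    rw [Set.mem_iUnion₂]
    refine ⟨y, ?_, ?_⟩
    · rw [Function.mem_support]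
      intro h3
      apply h2
      rw [h3, mul_zero]
    · rw [Function.mem_support]
      intro h3
      apply h2
      rw [hc.1 x y, h3]
      simp
  rw [h1]
  simp

theorem Gr_support (hc : Nice c) (o : V) (n : ℕ) : (Function.support (Gr c o n)).Finite := by
  induction n with
  | zero =>
    apply Set.Finite.subset (Set.finite_singleton o)
    intro x hx
    by_contra h
    apply hx
    have hxo : ¬ x = o := h
    simp only [Gr, ind]
    rw [if_neg hxo]
  | succ n ih =>
    apply Set.Finite.subset ((Set.finite_singleton o).union (avg_support hc ih))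
    intro x hx
    by_contra h
    rw [Set.mem_union, not_or] at h
    apply hx
    have h1 : avg c (Gr c o n) x = 0 := by
      by_contra h2
      exact h.2 h2
    have hxo : ¬ x = o := h.1
    simp only [Gr, ind]
    rw [if_neg hxo, h1, zero_add]

/-- a finite set containing the supports and their neighbours -/
theorem exists_fin (hc : Nice c) {f g : V → ℝ} (hf : (Function.support f).Finite)
    (hg : (Function.support g).Finite) : ∃ S : Finset V, (∀ x, f x ≠ 0 → x ∈ S) ∧
      (∀ x, g x ≠ 0 → x ∈ S) ∧ (∀ x y, (f x ≠ 0 ∨ g x ≠ 0) → c x y ≠ 0 → y ∈ S) := by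
  have h1 : (Function.support f ∪ Function.support g ∪
      ⋃ x ∈ (Function.support f ∪ Function.support g), Function.support (c x)).Finite :=
    (hf.union hg).union ((hf.union hg).biUnion fun x _ => hc.2 x)
  refine ⟨h1.toFinset, ?_, ?_, ?_⟩
  · intro x hx
    rw [Set.Finite.mem_toFinset]
    exact Or.inl (Or.inl hx)
  · intro x hx
    rw [Set.Finite.mem_toFinset]
    exact Or.inl (Or.inr hx)
  · intro x y hx hxy
    rw [Set.Finite.mem_toFinset]
    refine Or.inr ?_
    rw [Set.mem_iUnion₂]
    exact ⟨x, hx, hxy⟩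

theorem energy_eq (S : Finset V) (f : V → ℝ) (hs : ∀ x y, c x y = c y x)
    (h1 : ∀ x, f x ≠ 0 → x ∈ S)
    (h2 : ∀ x y, f x ≠ 0 → c x y ≠ 0 → y ∈ S) :
    Energy c f = ∑ x ∈ S, ∑ y ∈ S, (c x y : ℝ) * (f x - f y) ^ 2 := by
  have h3 : ∀ x y, (c x y : ℝ) * (f x - f y) ^ 2 ≠ 0 → x ∈ S ∧ y ∈ S := by
    intro x y h
    have hcxy : c x y ≠ 0 := by
      intro h4
      apply h
      rw [h4]
      simp
    have hcyx : c y x ≠ 0 := by rwa [hs y x]
    by_cases hx : f x = 0
    · have hy : f y ≠ 0 := by
        intro hy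
        apply h
        rw [hx, hy]
        simp
      exact ⟨h2 y x hy hcyx, h1 y hy⟩
    · exact ⟨h1 x hx, h2 x y hx hcxy⟩
  unfold Energy
  have h4 : (fun x => ∑ᶠ y, (c x y : ℝ) * (f x - f y) ^ 2) =
      fun x => ∑ y ∈ S, (c x y : ℝ) * (f x - f y) ^ 2 := by
    funext x
    apply finsum_eq_sum_of_support_subset
    intro y hy
    exact (h3 x y hy).2
  rw [h4]
  apply finsum_eq_sum_of_support_subset
  intro x hx
  rw [Function.mem_support] at hx
  obtain ⟨y, _, hy⟩ := Finset.exists_ne_zero_of_sum_ne_zero hx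
  exact (h3 x y hy).1

theorem green (hc : Nice c) (S : Finset V) (f g : V → ℝ)
    (h1 : ∀ x y, f x ≠ 0 → c x y ≠ 0 → y ∈ S) :
    ∑ x ∈ S, ∑ y ∈ S, (c x y : ℝ) * ((f x - f y) * (g x - g y)) =
      2 * ∑ x ∈ S, f x * (deg c x : ℝ) * (g x - avg c g x) := by
  have h2 : ∑ x ∈ S, ∑ y ∈ S, (c x y : ℝ) * ((f x - f y) * (g x - g y)) =
      ∑ x ∈ S, ∑ y ∈ S, (c x y : ℝ) * (f x * (g x - g y)) +
      ∑ x ∈ S, ∑ y ∈ S, (c x y : ℝ) * (f y * (g y - g x)) := by
    rw [← Finset.sum_add_distrib]
    apply Finset.sum_congr rfl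
    intro x _
    rw [← Finset.sum_add_distrib]
    apply Finset.sum_congr rfl
    intro y _
    ring
  have h3 : ∑ x ∈ S, ∑ y ∈ S, (c x y : ℝ) * (f y * (g y - g x)) =
      ∑ x ∈ S, ∑ y ∈ S, (c x y : ℝ) * (f x * (g x - g y)) := by
    rw [Finset.sum_comm]
    apply Finset.sum_congr rfl
    intro x _
    apply Finset.sum_congr rfl
    intro y _
    rw [hc.1 x y]
  rw [h2, h3, ← two_mul]
  congr 1
  apply Finset.sum_congr rfl
  intro x _
  by_cases hx : f x = 0
  · rw [hx]
    simp
  have hT : ∀ y, c x y ≠ 0 → y ∈ S := fun y hy => h1 x y hx hy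
  by_cases hd : (deg c x : ℝ) = 0
  · rw [hd]
    have h4 := deg_eq S x hT
    rw [hd] at h4
    have h5 : ∀ y ∈ S, (c x y : ℝ) = 0 :=
      (Finset.sum_eq_zero_iff_of_nonneg (fun y _ => Nat.cast_nonneg _)).1 h4.symm
    rw [mul_zero, zero_mul]
    apply Finset.sum_eq_zero
    intro y hy
    rw [h5 y hy, zero_mul]
  · rw [avg_eq S g x hT, mul_sub, mul_assoc _ (deg c x : ℝ) (_ / _), mul_div_cancel₀ _ hd,
      deg_eq S x hT, mul_assoc, Finset.sum_mul, ← mul_sub, ← Finset.sum_sub_distrib,
      Finset.mul_sum]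
    apply Finset.sum_congr rfl
    intro y _
    ring

theorem unbounded (hc : Nice c) (o : V) (hd : deg c o ≠ 0)
    (hU : ∀ δ > 0, ∃ U : V → ℝ, (Function.support U).Finite ∧ U o = 1 ∧ Energy c U ≤ δ)
    (B : ℝ) : ∃ n, B < Gr c o n o := by
  classical
  by_contra hcon
  push Not at hcon
  have hB1 : 1 ≤ B := (Gr_ge_one hc o 0).trans (hcon 0)
  have hd0 : (0 : ℝ) < deg c o := by
    have : 0 < deg c o := Nat.pos_of_ne_zero hd
    exact_mod_cast this
  obtain ⟨U, hUf, hUo, hUE⟩ := hU (deg c o / B) (by positivity)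
  -- the return probabilities tend to zero
  have hp : ∀ x, Tendsto (fun n => pr c o n x) atTop (𝓝 0) := by
    intro x
    have hs : Summable fun n => pr c o n x := by
      refine summable_of_sum_range_le (c := B) (fun n => pr_nonneg hc o n x) ?_
      intro n
      cases n with
      | zero => simp; linarith
      | succ n =>
        rw [← Gr_eq_sum hc o n x]
        exact (Gr_le hc o n x).trans (hcon n)
    exact hs.tendsto_atTop_zero
  have hmain : ∀ N : ℕ, 4 * (deg c o : ℝ) - 4 * ∑ x ∈ hUf.toFinset,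
      U x * (deg c x : ℝ) * pr c o (N + 1) x ≤ 3 * deg c o := by
    intro N
    obtain ⟨S, hS1, hS2, hS3⟩ := exists_fin hc hUf (Gr_support hc o N)
    have hE1 := energy_eq S U hc.1 hS1 (fun x y hx hxy => hS3 x y (Or.inl hx) hxy)
    have hg1 := green hc S U (Gr c o N) (fun x y hx hxy => hS3 x y (Or.inl hx) hxy)
    have hg2 := green hc S (Gr c o N) (Gr c o N) (fun x y hx hxy => hS3 x y (Or.inr hx) hxy)
    have hlap : ∀ x, Gr c o N x - avg c (Gr c o N) x = ind o x - pr c o (N + 1) x := by
      intro x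
      have h1 := Gr_succ hc o N x
      have h2 : Gr c o (N + 1) x = ind o x + avg c (Gr c o N) x := rfl
      linarith
    have hoS : o ∈ S := hS1 o (by rw [hUo]; norm_num)
    -- energy of the Green function
    have h1 : ∑ x ∈ S, Gr c o N x * (deg c x : ℝ) * (Gr c o N x - avg c (Gr c o N) x) ≤
        B * deg c o := by
      have h2 : ∀ x ∈ S, Gr c o N x * (deg c x : ℝ) * (Gr c o N x - avg c (Gr c o N) x) ≤
          if x = o then B * deg c o else 0 := by
        intro x _
        rw [hlap x]
        have h3 := pr_nonneg hc o (N + 1) x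
        have h4 := Gr_nonneg hc o N x
        have h5 : (0 : ℝ) ≤ deg c x := Nat.cast_nonneg _
        split_ifs with hx
        · subst hx
          have h6 : ind x x = 1 := by simp [ind]
          rw [h6]
          have h7 := hcon N
          have h8 : Gr c x N x * (deg c x : ℝ) ≤ B * deg c x :=
            mul_le_mul_of_nonneg_right h7 h5
          have h9 : 0 ≤ Gr c x N x * (deg c x : ℝ) := mul_nonneg h4 h5
          nlinarith
        · have h6 : ind o x = 0 := by simp [ind, hx]
          rw [h6]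
          have h9 : 0 ≤ Gr c o N x * (deg c x : ℝ) := mul_nonneg h4 h5
          nlinarith
      refine (Finset.sum_le_sum h2).trans ?_
      rw [Finset.sum_ite_eq' S o]
      rw [if_pos hoS]
    -- the pairing
    have h2 : ∑ x ∈ S, U x * (deg c x : ℝ) * (Gr c o N x - avg c (Gr c o N) x) =
        deg c o - ∑ x ∈ hUf.toFinset, U x * (deg c x : ℝ) * pr c o (N + 1) x := by
      have h3 : ∑ x ∈ hUf.toFinset, U x * (deg c x : ℝ) * pr c o (N + 1) x =
          ∑ x ∈ S, U x * (deg c x : ℝ) * pr c o (N + 1) x := by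
        apply Finset.sum_subset
        · intro x hx
          rw [Set.Finite.mem_toFinset] at hx
          exact hS1 x hx
        · intro x _ hx
          rw [Set.Finite.mem_toFinset, Function.mem_support, not_not] at hx
          rw [hx, zero_mul, zero_mul]
      have h4 : ∑ x ∈ S, U x * (deg c x : ℝ) * ind o x = deg c o := by
        have h5 : ∀ x ∈ S, U x * (deg c x : ℝ) * ind o x =
            if x = o then (deg c o : ℝ) else 0 := by
          intro x _
          unfold ind
          split_ifs with hx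
          · subst hx
            rw [hUo, one_mul, mul_one]
          · rw [mul_zero]
        rw [Finset.sum_congr rfl h5, Finset.sum_ite_eq' S o, if_pos hoS]
      rw [h3, ← h4, ← Finset.sum_sub_distrib]
      apply Finset.sum_congr rfl
      intro x _
      rw [hlap x]
      ring
    -- Cauchy-Schwarz
    have hB0 : 0 < B := by linarith
    have h5 : 2 * ∑ x ∈ S, ∑ y ∈ S, (c x y : ℝ) * ((U x - U y) *
          (Gr c o N x - Gr c o N y)) ≤
        B * (∑ x ∈ S, ∑ y ∈ S, (c x y : ℝ) * (U x - U y) ^ 2) +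
          (1 / B) * ∑ x ∈ S, ∑ y ∈ S, (c x y : ℝ) * ((Gr c o N x - Gr c o N y) *
          (Gr c o N x - Gr c o N y)) := by
      simp only [Finset.mul_sum]
      rw [← Finset.sum_add_distrib]
      apply Finset.sum_le_sum
      intro x _
      rw [← Finset.sum_add_distrib]
      apply Finset.sum_le_sum
      intro y _
      have h6 : (0 : ℝ) ≤ c x y := Nat.cast_nonneg _
      have h7 : 0 ≤ (B * (U x - U y) - (Gr c o N x - Gr c o N y)) ^ 2 := sq_nonneg _
      have h8 : B * (U x - U y) ^ 2 + 1 / B * ((Gr c o N x - Gr c o N y) *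
          (Gr c o N x - Gr c o N y)) - 2 * ((U x - U y) * (Gr c o N x - Gr c o N y)) =
          (B * (U x - U y) - (Gr c o N x - Gr c o N y)) ^ 2 / B := by
        field_simp
        ring
      have h9 : 0 ≤ (B * (U x - U y) - (Gr c o N x - Gr c o N y)) ^ 2 / B :=
        div_nonneg h7 hB0.le
      rw [← h8] at h9
      nlinarith [mul_nonneg h6 h9]
    rw [← hE1, hg1, hg2, h2] at h5
    have h6 : B * Energy c U ≤ deg c o := by
      have := mul_le_mul_of_nonneg_left hUE hB0.le
      rwa [mul_div_cancel₀ _ hB0.ne'] at this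
    have h7 : 1 / B * (2 * ∑ x ∈ S, Gr c o N x * (deg c x : ℝ) *
        (Gr c o N x - avg c (Gr c o N) x)) ≤ 2 * deg c o := by
      rw [one_div, inv_mul_le_iff₀ hB0]
      linarith
    linarith
  have hlim : Tendsto (fun N : ℕ => 4 * (deg c o : ℝ) - 4 * ∑ x ∈ hUf.toFinset,
      U x * (deg c x : ℝ) * pr c o (N + 1) x) atTop (𝓝 (4 * (deg c o : ℝ) -
        4 * ∑ x ∈ hUf.toFinset, U x * (deg c x : ℝ) * 0)) := by
    apply Tendsto.const_sub
    apply Tendsto.const_mul
    apply tendsto_finsetSum
    intro x _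
    exact ((hp x).comp (tendsto_add_atTop_nat 1)).const_mul _
  have h1 := le_of_tendsto' hlim hmain
  simp at h1
  linarith

end R1

theorem st_REC1 : ST_REC1 := by
  intro V c o hc hd hU
  unfold Recurrent
  rw [tendsto_order]
  constructor
  · intro a ha
    obtain ⟨n, hn⟩ := R1.unbounded hc o hd hU (1 / (1 - a))
    have ha' : 0 < 1 - a := by linarith
    have hmono : Monotone fun n => R1.Gr c o n o :=
      monotone_nat_of_le_succ fun n => R1.Gr_mono hc o n o
    filter_upwards [Filter.eventually_ge_atTop n] with m hm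
    have h1 : 1 / (1 - a) < R1.Gr c o m o := hn.trans_le (hmono hm)
    have h2 : R1.Gr c o (m + 1) o = 1 + avg c (R1.Gr c o m) o := by
      simp [R1.Gr, R1.ind]
    have h3 : avg c (R1.Gr c o m) o ≤ R1.Gr c o m o * avg c (hit c o m) o := by
      rw [← R1.avg_mul hc]
      exact R1.avg_mono hc (R1.Gr_hit hc o m) o
    have h4 := R1.Gr_mono hc o m o
    have h5 := R1.Gr_ge_one hc o m
    rw [div_lt_iff₀ ha'] at h1
    by_contra hcon
    push Not at hcon
    nlinarith
  · intro a ha
    refine Filter.Eventually.of_forall fun n => ?_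
    exact (R1.avg_le_one hc (fun y => (R1.hit_mem hc o n y).2) o).trans_lt ha

end SPR
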